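import Pool.Agent.V5helper77.OP.Main

/-!
# Ordinary primes for intersection cohomology, systems of bilinear equations, and one set of primes for all
# projective varieties

For a scheme `X` over `ℚ` let `V w n X = Gr^W_w H^n_c(X)`, a motive over `ℚ`. A system of bilinear equations
`∑_{(i, j) ∈ E_l} x_i y_j = 0`, `l = 1, …, c`, with at most three terms in every equation, defines the
closed subscheme `sysS ℚ E` of an affine space.

Q1 for all projective varieties over all number fields is equivalent to the statement that each of the
motives `Gr^W_w H^n_c` of the three-term bilinear systems has infinitely many ordinary primes; and it is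
equivalent to the existence of ONE infinite set `P` of prime numbers such that for every projective
variety `X` over a number field `F` and every `n` all the places of `F` above almost all `p ∈ P` are
ordinary for `IH^n(X)`.

Idea of the proof. (1) A nonzero tensor product is ordinary at `p` if and only if the factors are: among
the polygons on or above the Hodge polygon with the same end points, the Hodge polygon is the one with the
largest sum of the squares of the slopes, and for a tensor product these sums are additive up to positive
factors. The same argument shows that `p` is ordinary for a restriction of scalars if and only if all places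
above `p` are ordinary. By the Künneth formula (the product of two bilinear systems is again a bilinear
system) the statement for each single motive implies the statement for finitely many motives
simultaneously, so there is a filter of sets of primes for which all the motives considered are ordinary;
for the countably many systems a sequence of primes. (2) For a filter, the motives which are ordinary at the
primes of a set of the filter are closed under sums, summands and twists. So the schemes `X` for which all
`Gr^W_w H^n_c(X)` are of this kind are closed under closed-open decompositions and under passing from
`X × 𝔾_m` to `X`; by the universality of the bilinear systems all schemes are obtained.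
-/

set_option autoImplicit false

open CategoryTheory AlgebraicGeometry Pool.Agent.Y116.UV Pool.Agent.Q282.UZ Pool.Agent.V5helper77.GW
  Pool.Agent.V5helper77.OP

universe v u

namespace Pool.Agent.Results.MP_db07cb_ag.BilinearSystems

variable {C : Type u} [Category.{v} C] [Abelian C] {V : ℤ → ℤ → Sch ℚ → C} {tw : ℤ → C → C}
  {ten : C → C → C} {D : Slopes C} {I : IHSlopes}

/-- **Ordinary primes for intersection cohomology and bilinear systems.**

(1) There are infinitely many ordinary places for `IH^n(X)`, for all projective varieties `X` over number
fields and all `n` (Q1), if and only if there are infinitely many ordinary primes for `Gr^W_w H^n_c(W)` for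
every three-term bilinear system `W` over `ℚ` and all `w`, `n`.

(2) This is also equivalent to: there is one infinite set `P` of primes such that for all number fields
`F`, all projective varieties `X` over `F` and all `n`, for almost all `p ∈ P`, all places of `F` above `p` are
ordinary for `IH^n(X)`.

(3) For every set `P` of primes and every `d`: almost all `p ∈ P` are ordinary for `H^n(X)`, for every smooth
projective variety `X` over `ℚ` of dimension at most `d` and every `n`, if and only if almost all `p ∈ P` are
ordinary for `Gr^W_w H^n_c` of the hypersurface `T(x, y, z) = 1`, for all `w`, `n`, for every trilinear form `T`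
over `ℚ` with a block of at most `d + 2` variables. -/
theorem result (hH : Hironaka ℚ) (hV : IsWeightTheory V tw) (hD : IsSlopes V tw ten D)
    (hI : IsIH V D I) :
    (I.OrdinaryPrimes ↔ ∀ (a b c : ℕ) (E : Fin c → Finset (Fin a × Fin b)), (∀ l, (E l).card ≤ 3) →
      ∀ w n : ℤ, {p | D.Ord (V w n (sysS ℚ E)) p}.Infinite) ∧
    (I.OrdinaryPrimes ↔ ∃ P : Set Nat.Primes, P.Infinite ∧
      ∀ (F : Type) [Field F] [NumberField F] (X : Sch F), IsProjVar X → ∀ n : ℤ,
        {p ∈ P | ¬ ∀ v ∈ lying F p, I.Ord F X n v}.Finite) ∧
    ∀ (P : Set Nat.Primes) (d : ℕ),
      (∀ X : Sch ℚ, IsSmProj X → topologicalKrullDim X.left ≤ d → ∀ n : ℤ,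
          {p ∈ P | ¬ D.Ord (V n n X) p}.Finite) ↔
        ∀ (a b c : ℕ) (T : Fin a → Fin b → Fin c → ℚ), (a ≤ d + 2 ∨ b ≤ d + 2 ∨ c ≤ d + 2) →
          ∀ w n : ℤ, {p ∈ P | ¬ D.Ord (V w n (hypS T)) p}.Finite :=
  ⟨(main_one hV hD hH hI).1, (main_one hV hD hH hI).2, fun P d => main_two hV hD hH P d⟩

end Pool.Agent.Results.MP_db07cb_ag.BilinearSystems
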