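import Pool.Agent.V5helper91.IHO.Main

/-!
# Ordinary primes for intersection cohomology built from hyperkähler varieties and motives with
# multiplication

`F` is a number field. A toolkit `T` over `F` (`Toolkit`) consists of a finite extension `K` of `F` and
finitely many pure motives `A i` over `K` with multiplication by totally real or CM fields `E i`, whose
`ℓ`-adic monodromy groups are connected (for one prime `ℓ`), such that one element `γ` of the Galois
group of `K` satisfies the orbit condition for all `i`: for every vertex `k` of the Hodge polygon of
the `σ`-part of `A i` the total Hodge defect at `k` is at most the number of elements of the orbit of `σ`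
under `γ`. This holds, for all `γ`, if `E i = ℚ` and the Hodge numbers are `(1, 1)`, `(2, 2)` or `(1, n, 1)`
up to a Tate twist: elliptic curves, abelian surfaces, `H²` of K3 surfaces and of hyperkähler varieties,
the middle cohomology of cubic fourfolds; it holds for the pieces of rank one over `E i` of the
motives of CM type, for the pieces over a CM field which are definite outside of one conjugate pair of
embeddings, where the signature is `(1, n - 1)`, and for newforms of weight `2` or `3` whose field of
coefficients is cyclic.

`Built T Y` is the class of the cohomology theories over `K` which are obtained from the following ones
by products, direct sums, Tate twists and direct summands: all cohomology groups `H^i`, `i ≤ 2 dim X`, of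
hyperkähler varieties `X` of any deformation type whose `H²` is built from the `A i`; all direct summands
of sums of tensor products of pieces of the `A i`; and the cohomology of varieties which are known to
be ordinary at almost all places of degree one of `K`. (The data `Hyperkaehler` are given by the action of
the Lie algebra `so(H²)` on the cohomology, so that they may also be applied to the intersection
cohomology of the singular symplectic varieties where this action exists.)

**Theorem.**

1. Let `X_k` be finitely many projective varieties over `F`, arbitrarily singular, such that over `K` all
   `IH^n(X_k)` are direct summands of cohomology groups `H^n(V_k)`, with `V_k` in the class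
   `Built T` (for instance, there is a surjective morphism from a product of such varieties to `X_k`:
   decomposition theorem). Then the primes of `F` which are ordinary for all `IH^n(X_k)`, for all `n`
   and `k` simultaneously, have lower density at least `T.proportion > 0`; `T.proportion` is the
   proportion of the elements of the Galois group of `K` with the orbit condition, divided by `[K : F]`.
2. Let `T_0, T_1, ...` be toolkits over `F` with `c ≤ T_j.proportion` for all `j`. Then there is one
   infinite set `P` of primes of `F`, of lower density at least `c`, such that for every projective
   variety `X` over `F` which is built with `T_j` for all large `j`, all but finitely many primes in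
   `P` are ordinary for all `IH^n(X)`.

The proof combines the two methods for the existence of ordinary primes: congruences for the traces of
Frobenius with Chebotarev's theorem, for the motives with multiplication, and the action of `so(H²)` for
the higher cohomology of hyperkähler varieties.
-/

set_option autoImplicit false

namespace Pool.Agent.Results.MP_db07cb_ag.BuiltFromMotives

open NumberField IsDedekindDomain Filter
open Pool.Agent.V5helper91.IHO

theorem result (F : Type) [Field F] [NumberField F] :
    (∀ (T : Toolkit F) (κ : Type) [Finite κ] (X : κ → IHData F),
      (∀ k, ∃ Y, (X k).BuiltWith T Y) →
      0 < T.proportion ∧
        T.proportion ≤ lowerDensity fun v : HeightOneSpectrum (𝓞 F) => ∀ k, (X k).OrdinaryAt v) ∧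
    ∀ (T : ℕ → Toolkit F) (c : ℝ), (∀ j, c ≤ (T j).proportion) →
      ∃ P : Set (HeightOneSpectrum (𝓞 F)), P.Infinite ∧ c ≤ lowerDensity (fun v => v ∈ P) ∧
        ∀ (X : IHData F) (Y : Finset ℕ), (∀ᶠ j in atTop, X.BuiltWith (T j) Y) →
          {v ∈ P | ¬ X.OrdinaryAt v}.Finite :=
  ⟨fun T _ _ X hX => ⟨T.proportion_pos, part_one X hX⟩, fun T c hc => part_two T c hc⟩

end Pool.Agent.Results.MP_db07cb_ag.BuiltFromMotives
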