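import Pool.Agent.V5helper94.OB.Main

/-!
# Ordinary primes for the varieties of bounded dimension and for the schemes built from them

For a scheme `X` over `ℚ` let `V w n X = Gr^W_w H^n_c(X)`, a motive over `ℚ`; `H^n(X) = V n n X` for smooth
projective varieties. A prime number is ordinary for a motive if its Newton polygon at `p` is its
Hodge polygon.

The schemes over `ℚ` which are *built from schemes of dimension at most `d`* form the smallest class
`Built ℚ d` which contains the separated schemes of finite type of dimension at most `d` and which is stable
under isomorphisms, closed-open decompositions (two of the three schemes are in the class, then so is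
the third), affine bundles of Jouanolou's type, the passage from `X × 𝔾_m` to `X`, products of affine
schemes, and the passage from `Y` to `X` for finite free coverings `Y → X` of affine schemes. The class
contains many schemes of any dimension, for example the preimages `F⁻¹(Z)` of closed subschemes `Z` of
dimension at most `d` of affine spaces under maps `F = f_1 × ⋯ × f_m` given by polynomials `f_i` in
disjoint sets of variables from the class `Sep ℚ d`.

Fix `d ≥ 1`. For every set `P` of primes the following are equivalent: almost all `p ∈ P` are ordinary for
each `H^n(X)`, `X` smooth projective over `ℚ` of dimension at most `d`; for each `Gr^W_w H^n_c(X)`,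
`X` built from schemes of dimension at most `d`; for each `Gr^W_w H^n_c` of a hypersurface
`T(x, y, z) = 1`, `T` trilinear with a block of at most `d + 2` variables; all the places above almost all
`p ∈ P` are ordinary for each `IH^n(X)`, `X` projective of dimension at most `d` over any number field.
There is an infinite set `P` with these properties if and only if there are infinitely many ordinary
primes for the products of varieties of dimension at most `d`, one product at a time.

Idea of the proof. (1) For a filter of sets of primes, the motives over `ℚ` which are ordinary at the
primes of the filter are stable under direct sums, direct summands, Tate twists and tensor products, and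
the category is semisimple. Hence the schemes all of whose graded pieces are ordinary at the primes of the
filter have all the stability properties in the definition of `Built ℚ d`; by Hironaka's theorem it
suffices to know the smooth projective varieties of dimension at most `d`. (2) A nonzero tensor product is
ordinary at `p` if and only if the factors are, for almost all `p`. So the statement for each single tensor
product implies the statement for finitely many motives simultaneously, and there is a filter of sets
of primes, finer than the cofinite filter, for which all motives are ordinary. By (1) there are infinitely
many ordinary primes for each piece of each scheme of the class. There are only countably many affine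
schemes of finite type over `ℚ`, so there is one sequence of primes for them.
-/

set_option autoImplicit false

open CategoryTheory AlgebraicGeometry
open Pool.Agent.Y116.UV Pool.Agent.V5helper77.GW Pool.Agent.V5helper77.OP
  Pool.Agent.V5helper94.SV Pool.Agent.V5helper94.OB

universe v u

namespace Pool.Agent.Results.MP_db07cb_ag.BuiltVarieties

/-- **Ordinary primes for varieties of dimension at most `d` and the schemes built from them.** Let
`d ≥ 1`.
(1) For every set `P` of primes the following are equivalent: almost all `p ∈ P` are ordinary for `H^n(X)`, for
each smooth projective variety `X` over `ℚ` of dimension at most `d` and each `n`; almost all `p ∈ P` are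
ordinary for `Gr^W_w H^n_c(X)`, for each scheme `X` over `ℚ` which is built from schemes of dimension at most
`d` and all `w`, `n`; the same for each hypersurface `X : T(x, y, z) = 1`, `T` a trilinear form over `ℚ` with a
block of at most `d + 2` variables; all the places above almost all `p ∈ P` are ordinary for `IH^n(X)`, for
each projective variety `X` of dimension at most `d` over a number field and each `n`.
(2) The following are equivalent: there are infinitely many ordinary primes for each motive
`H^{n_1}(X_1) ⊗ ⋯ ⊗ H^{n_r}(X_r)`, `X_i` smooth projective varieties over `ℚ` of dimension at most `d`; the
same for each tensor product of motives `Gr^W_w H^n_c(X)`, `X` as in (1) a trilinear hypersurface; for each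
motive `Gr^W_w H^n_c(X)`, `X` built from schemes of dimension at most `d`; and: there is one infinite set `P` of
primes with the first, the second, or the fourth property in (1).
(3) The schemes over `ℚ` which are built from schemes of dimension at most `d` contain the preimages and
the systems given by polynomials with separated variables. -/
theorem result {C : Type u} [Category.{v} C] [Abelian C] (V : ℤ → ℤ → Sch ℚ → C) (tw : ℤ → C → C)
    (ten : C → C → C) (D : Slopes C) (I : IHSlopes) (hV : IsTensorTheory V tw ten)
    (hD : IsSlopes V tw ten D) (hI : IsIH V D I) (hR : HasResolutions V D I) (hH : Hironaka ℚ)
    (d : ℕ) (hd : 1 ≤ d) :
    (∀ P : Set Nat.Primes, (SmProjAt V D d P ↔ BuiltAt V D d P) ∧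
      (SmProjAt V D d P ↔ CubicsAt V D (d + 2) P) ∧ (SmProjAt V D d P ↔ IntersectionAt I d P)) ∧
    List.TFAE [ProductsOrdinary V ten D d, CubicsOrdinary V ten D (d + 2), BuiltOrdinary V D d,
      ∃ P : Set Nat.Primes, P.Infinite ∧ SmProjAt V D d P,
      ∃ P : Set Nat.Primes, P.Infinite ∧ BuiltAt V D d P,
      ∃ P : Set Nat.Primes, P.Infinite ∧ IntersectionAt I d P] ∧
    OnPreimages ℚ d (Built ℚ d) ∧ OnSystems ℚ d (Built ℚ d) :=
  ⟨fun P => ⟨(set_iff hV hD hH P hd).1, (set_iff hV hD hH P hd).2, set_inter hD hI hR P d⟩,
    main_tfae hV hD hH hI hR hd, built_preimages hd, built_systems hd⟩

end Pool.Agent.Results.MP_db07cb_ag.BuiltVarieties
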