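import Pool.Agent.V5helper94.RO.Ord

/-!
# Ordinary primes for the varieties which are generated by Fermat curves

For a scheme `X` over `ℚ` let `V w n X = Gr^W_w H^n_c(X)`, a motive over `ℚ`; `H^n(X) = V n n X` for smooth
projective varieties. A prime number is ordinary for a motive if its Newton polygon at `p` is its
Hodge polygon.

Let `k` be a field. The schemes over `k` which are *generated by Fermat curves* form the smallest class
`From k (IsFermat k)` which contains the affine curves `α s^a + β t^b = 1` (`α β ≠ 0`, `a, b ≥ 1`) and the
affine schemes of finite type of dimension at most zero and which is stable under isomorphisms,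
closed-open decompositions (two of the three schemes are in the class, then so is the third), affine
bundles of Jouanolou's type, the passage from `X × 𝔾_m` to `X`, products of affine schemes, and the passage
from `Y` to `X` for finite free coverings `Y → X` of affine schemes.

The class contains many schemes of any dimension, with arbitrary singularities, see the last part
of the theorem: all hypersurfaces `f = 0` in affine spaces, for polynomials `f` whose exponents are
affinely independent (for example all binomials, trinomials in two or more variables whose exponents are
not on a line, and Delsarte's polynomials); and the level sets and preimages of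
plane curves for compositions of polynomials in disjoint sets of variables, for example all polynomials
which are built from variables by the operations `f ↦ α f^a`, `(f, g) ↦ f^a g^b`,
`(f, g) ↦ α f^a + β g^b` and `g ↦ ∑ x_j g_j(y)`.

Idea of the proof. (1) For a set `P` of primes, the motives over `ℚ` for which almost all `p ∈ P` are
ordinary are stable under direct sums, direct summands, Tate twists and tensor products, and the category
of motives is semisimple. Hence the schemes for which almost all `p ∈ P` are ordinary for all graded
pieces have all the stability properties in the definition of the class. The Fermat curves with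
exponents dividing `N` are ordinary at almost all `p ≡ 1` modulo `N` (Jacobi sums and Stickelberger's
theorem). (2) Let `f(x)`, `g(y)` be homogeneous of degree `M`, `N` for integer weights, and let `Z` be a plane
curve. Over the part of `Z` where `u ≠ 0`, `v ≠ 0` the scheme of all `(x, y)` with `(f(x), g(y)) ∈ Z` becomes
after the Kummer covering `u = s^M`, `v = t^N` the product of the curve of the `(s, t)` with
`(s^M, t^N) ∈ Z`, `s t ≠ 0`, and the schemes `f = 1`, `g = 1`; so only the curve `{(s^M, t^N) ∈ Z}` is needed. For
`α u^a + β v^b = 1` it is a Fermat curve, for `u^a v^b = 1` a diagonalizable group. (3) If the exponents of `f`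
are affinely independent, then the part of the hypersurface `f = 0` in each torus has a covering by a
product of a torus and an open part of a Fermat hypersurface, which is treated by (2).
-/

set_option autoImplicit false

open CategoryTheory AlgebraicGeometry
open Pool.Agent.Y116.UV Pool.Agent.V5helper77.GW Pool.Agent.V5helper77.OP
  Pool.Agent.V5helper94.SV Pool.Agent.V5helper94.OB Pool.Agent.V5helper94.RO NumberField
  IsDedekindDomain

universe v u

namespace Pool.Agent.Results.MP_db07cb_ag.FermatClass

/-- **Ordinary primes for the varieties which are generated by Fermat curves.**
(1) For each scheme `X` over `ℚ` which is generated by Fermat curves there is an integer `N > 0` such that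
almost all prime numbers `p ≡ 1` modulo `N` are ordinary for all `Gr^W_w H^n_c(X)`.
(2) Q1: let `X` be a projective variety over a number field `F` such that the restriction of scalars of
`IH^n(X)` is a direct summand of `Gr^W_w H^m_c(Y)`, for a scheme `Y` over `ℚ` which is generated by Fermat
curves. Then for some `N > 0` all the places above almost all `p ≡ 1` modulo `N` are ordinary for
`IH^n(X)`, and there are infinitely many ordinary places. (3) This applies to each smooth projective variety
`X` over `ℚ` which is generated by Fermat curves.
(4) There is one infinite set `P` of prime numbers such that almost all `p ∈ P` are ordinary for all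
`Gr^W_w H^n_c(X)`, for each `X` as in (1), and all the places above almost all `p ∈ P` are ordinary for
`IH^n(X)`, for each `(X, n)` as in (2).
(5) For every field `k` the class of the schemes generated by Fermat curves contains all
hypersurfaces `f = 0` in affine spaces with affinely independent exponents, the level sets and the complements
of the zero sets of the polynomials with separated variables, and the preimages of plane curves
under pairs of such polynomials.
(6) The transfer (1) holds for every class `G` of schemes over `ℚ` and every set `P` of primes: if
almost all `p ∈ P` are ordinary for all `Gr^W_w H^n_c(X)`, `X` in `G`, then the same is true for all `X` generated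
by `G`; and this class contains the level sets and preimages given by polynomials with separated
variables. -/
theorem result {C : Type u} [Category.{v} C] [Abelian C] (V : ℤ → ℤ → Sch ℚ → C) (tw : ℤ → C → C)
    (ten : C → C → C) (D : Slopes C) (I : IHSlopes) (hV : IsTensorTheory V tw ten)
    (hD : IsSlopes V tw ten D) (hI : IsIH V D I) (hA : HodgeOfPoints V D)
    (hF : FermatOrdinary V D) :
    (∀ X : Sch ℚ, From ℚ (IsFermat ℚ) X →
      ∃ N : ℕ, 0 < N ∧ ∀ w n : ℤ, AlmostAll D (split N) (V w n X)) ∧
    (∀ (F : Type) [Field F] [NumberField F] (X : Sch F) (n : ℤ), IsProjVar X →
      ComesFrom V D I (From ℚ (IsFermat ℚ)) F X n →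
        (∃ N : ℕ, 0 < N ∧ {p ∈ split N | ¬ ∀ v ∈ lying F p, I.Ord F X n v}.Finite) ∧
        {v | I.Ord F X n v}.Infinite) ∧
    (∀ X : Sch ℚ, IsSmProj X → From ℚ (IsFermat ℚ) X → ∀ n : ℤ,
      ComesFrom V D I (From ℚ (IsFermat ℚ)) ℚ X n) ∧
    (∃ P : Set Nat.Primes, P.Infinite ∧
      (∀ X : Sch ℚ, From ℚ (IsFermat ℚ) X → ∀ w n : ℤ, AlmostAll D P (V w n X)) ∧
      ∀ (F : Type) [Field F] [NumberField F] (X : Sch F) (n : ℤ), IsProjVar X →
        ComesFrom V D I (From ℚ (IsFermat ℚ)) F X n →
          {p ∈ P | ¬ ∀ v ∈ lying F p, I.Ord F X n v}.Finite) ∧
    (∀ (k : Type) [Field k], OnSimplices k (From k (IsFermat k))) ∧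
    (∀ (k : Type) [Field k] (G : Sch k → Prop), OnLevels k G (From k G) ∧
      OnPlaneCurves k G (From k G)) ∧
    ∀ (G : Sch ℚ → Prop) (P : Set Nat.Primes),
      (∀ X : Sch ℚ, G X → ∀ w n : ℤ, AlmostAll D P (V w n X)) →
        ∀ X : Sch ℚ, From ℚ G X → ∀ w n : ℤ, AlmostAll D P (V w n X) :=
  ⟨fun _ hX => fermat_ord hV hD hA hF hX,
    fun _ _ _ _ _ hX hM => fermat_inter hV hD hA hI hF hX hM,
    fun _ hX h n => comesFrom_smooth hI hX h n, fermat_set hV hD hA hI hF,
    fun k _ => on_simplices k, fun _ _ _ => ⟨on_levels, on_planeCurves⟩,
    fun G P h X hX w n => from_ord hV hD hA G P h X hX w n⟩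

end Pool.Agent.Results.MP_db07cb_ag.FermatClass
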